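import Pool.Agent.helper13.RF.Spec2

set_option autoImplicit false

open NumberField IsDedekindDomain
open scoped nonZeroDivisors

namespace Pool.Agent.RF

theorem RDN_coe (F N : Type) [Field F] [NumberField F] [Field N] [NumberField N] [Algebra F N] (b : 𝓞 F) :
    ((algebraMap (𝓞 F) (𝓞 N) b : 𝓞 N) : N) = algebraMap F N (b : F) := by
  rfl

theorem RDN : RDN_stmt := by
  intro F K N _ _ _ _ _ _ _ _ s τ h b hb
  obtain ⟨hb0, ⟨g, hg⟩, ⟨I, hI⟩, ⟨u, hu⟩⟩ := hb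
  refine ⟨?_, ⟨algebraMap F N g, ?_⟩, ⟨I.map (algebraMap (𝓞 F) (𝓞 N)), ?_⟩, ⟨algebraMap (𝓞 F) (𝓞 N) u, ?_⟩⟩
  · intro h0
    apply hb0
    have h1 := RDN_coe F N b
    rw [h0] at h1
    have h2 : algebraMap F N (b : F) = 0 := by rw [← h1]; simp
    have h3 : (b : F) = 0 := (map_eq_zero (algebraMap F N)).1 h2
    exact RingOfIntegers.coe_eq_zero_iff.1 h3
  · show τ ((algebraMap (𝓞 F) (𝓞 N) b : 𝓞 N) : N) = _
    rw [RDN_coe, h, hg, map_mul, map_pow, map_pow]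
  · rw [← Ideal.map_pow, ← hI, Ideal.map_span, Set.image_singleton]
  · rw [hu, map_add, map_mul, map_one, map_ofNat]

end Pool.Agent.RF
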