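import Pool.Agent.helper13.RF.Spec2

set_option autoImplicit false

open NumberField IsDedekindDomain
open scoped nonZeroDivisors

namespace Pool.Agent.RF

theorem REF (hRLQ : RLQ_stmt) (hCMP : CMP_stmt) (hBIG : BIG_stmt) (hRDN : RDN_stmt) (hFPD : FPD_stmt) (hKUM : KUM_stmt)
    (hLIN : LIN_stmt) (hDIS : DIS_stmt) (hCT5 : CT5_stmt) : REFL_stmt := by
  classical
  intro D hD1 hDsq hD5 F _ _ s r w hMir K _ _ hK2 hx B hB hBd
  have hreal : IsTotallyReal K := hRLQ D hD1 hDsq K hK2 hx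
  obtain ⟨N, _, _, _, _, ζ, τ, hζ, hτζ, hKN4, hFN2, hgal, hτ⟩ := hCMP D hD1 hDsq hD5 F s r w hMir K hK2 hx
  obtain ⟨M, _, _, _, _, _, hMgal, hα⟩ := hBIG K N (B.image fun b : 𝓞 F => algebraMap F N (b : F))
  have hcoe : ∀ b : 𝓞 F, ((algebraMap (𝓞 F) (𝓞 N) b : 𝓞 N) : N) = algebraMap F N (b : F) := fun b => rfl
  have hne : ∀ b ∈ B, algebraMap F N (b : F) ≠ 0 := by
    intro b hb h0
    have h1 : (b : F) = 0 := (map_eq_zero (algebraMap F N)).1 h0
    exact (hB b hb).1.1 (RingOfIntegers.coe_eq_zero_iff.1 h1)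
  have hnf : ∀ b ∈ B, ¬ ∃ g : N, algebraMap F N (b : F) = g ^ 5 := by
    rintro b hb ⟨g, hg⟩
    exact (hB b hb).2 (hFPD F N hFN2 _ g hg)
  have hK : ∀ b : {b // b ∈ B}, ∃ (α : M) (L : IntermediateField K M) (H : Subgroup (ClassGroup (𝓞 K))),
      α ^ 5 = algebraMap N M (algebraMap F N ((b : 𝓞 F) : F)) ∧ IsGalois K L ∧ Module.finrank K L = 5 ∧
      IntermediateField.adjoin N (L : Set M) = IntermediateField.adjoin N {α} ∧ NG K L H := by
    intro b
    obtain ⟨α, hαb⟩ := hα (algebraMap F N ((b : 𝓞 F) : F)) (Finset.mem_image.2 ⟨(b : 𝓞 F), b.2, rfl⟩)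
    obtain ⟨L, h1, h2, h3, H, h4⟩ := hKUM K N M ζ τ (algebraMap (𝓞 F) (𝓞 N) b) α hK2 hreal hζ hτζ hKN4 hgal
      (hRDN F K N s τ hτ b (hB b b.2).1) (hnf b b.2) hαb
    exact ⟨α, L, H, hαb, h1, h2, h3, h4⟩
  choose α L H hα5 hLg hL5 hLa hNG using hK
  have key : ∀ b b' : {b // b ∈ B}, H b' = H b → ∃ k : ℕ, 1 ≤ k ∧ k ≤ 4 ∧ ∃ h : N,
      algebraMap F N ((b' : 𝓞 F) : F) = algebraMap F N ((b : 𝓞 F) : F) ^ k * h ^ 5 := by
    intro b b' hH
    have hLL : L b = L b' := by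
      refine hDIS K M (L b) (L b') (H b) (hLg b) (hLg b') (hL5 b) (hL5 b') (hNG b) ?_
      rw [← hH]
      exact hNG b'
    have hadj : IntermediateField.adjoin N {α b} = IntermediateField.adjoin N {α b'} := by
      rw [← hLa b, ← hLa b', hLL]
    exact hLIN N M ζ _ _ (α b) (α b') hζ (hα5 b) (hα5 b') (hne b b.2) (hne b' b'.2) (hnf b b.2) (hnf b' b'.2) hadj
  have hfib : ∀ b : {b // b ∈ B}, Nat.card {b' : {b // b ∈ B} // H b' = H b} ≤ 4 := by
    intro b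
    have hc : ∀ b' : {b' : {b // b ∈ B} // H b' = H b}, ∃ k : Fin 4, ∃ h : N,
        algebraMap F N (((b' : {b // b ∈ B}) : 𝓞 F) : F) = algebraMap F N ((b : 𝓞 F) : F) ^ ((k : ℕ) + 1) * h ^ 5 := by
      intro b'
      obtain ⟨k, hk1, hk4, h, hh⟩ := key b b' b'.2
      refine ⟨⟨k - 1, by omega⟩, h, ?_⟩
      have e1 : ((⟨k - 1, by omega⟩ : Fin 4) : ℕ) + 1 = k := by
        show k - 1 + 1 = k
        omega
      rw [e1]
      exact hh
    choose kk hh hkk using hc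
    have hinj : Function.Injective kk := by
      intro b' b'' he
      have e1 := hkk b'
      have e2 := hkk b''
      rw [he] at e1
      have hb2 : hh b'' ≠ 0 := by
        intro h0
        apply hne _ (b'' : {b // b ∈ B}).2
        rw [e2, h0]
        simp
      have hbk : algebraMap F N ((b : 𝓞 F) : F) ^ ((kk b'' : ℕ) + 1) ≠ 0 := pow_ne_zero _ (hne b b.2)
      have e3 : algebraMap F N ((((b' : {b // b ∈ B}) : 𝓞 F) : F) / (((b'' : {b // b ∈ B}) : 𝓞 F) : F)) = (hh b' / hh b'') ^ 5 := by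
        rw [map_div₀, e1, e2, div_pow]
        field_simp
      obtain ⟨g, hg⟩ := hFPD F N hFN2 _ _ e3
      have hF0 : (((b'' : {b // b ∈ B}) : 𝓞 F) : F) ≠ 0 := by
        intro h0
        apply hne _ (b'' : {b // b ∈ B}).2
        rw [h0, map_zero]
      have e4 : (((b' : {b // b ∈ B}) : 𝓞 F) : F) = (((b'' : {b // b ∈ B}) : 𝓞 F) : F) * g ^ 5 := by
        rw [← hg]
        field_simp
      by_contra hcon
      refine hBd _ (b' : {b // b ∈ B}).2 _ (b'' : {b // b ∈ B}).2 ?_ ⟨g, e4⟩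
      intro h5
      exact hcon (Subtype.ext (Subtype.ext h5))
    have h6 := Nat.card_le_card_of_injective kk hinj
    rwa [Nat.card_eq_fintype_card (α := Fin 4), Fintype.card_fin] at h6
  have hfin := hCT5 (ClassGroup (𝓞 K)) {b // b ∈ B} H (fun b => (hNG b).1) hfib
  rwa [Nat.card_eq_fintype_card (α := {b // b ∈ B}), Fintype.card_coe] at hfin

end Pool.Agent.RF
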