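import Pool.Agent.helper13.RF.SpecU

set_option autoImplicit false

namespace Pool.Agent.RF

open NumberField

/-- `ι` is injective -/
theorem UNU_inj {D : ℤ} {F : Type} [Field F] [NumberField F] (C : Ctx D F) {a : OO} (h : C.ι a = 0) : a = 0 := by
  have h1 := C.ind a 0 (by rw [h, map_zero, zero_mul, add_zero])
  exact h1.1

/-- `ι π` is not a unit -/
theorem UNU_unit {D : ℤ} {F : Type} [Field F] [NumberField F] (C : Ctx D F) (π : OO) (h10 : ¬ π ∣ (10 : OO)) :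
    ¬ IsUnit (C.ι π) := by
  intro h
  obtain ⟨y, hy⟩ := h.exists_right_inv
  obtain ⟨a, b, hab⟩ := C.co y
  have h1 : C.ι (π * a - 10) + C.ι (π * b) * C.w = 0 := by
    have h2 : (10 : 𝓞 F) = C.ι 10 := by
      rw [map_ofNat]
    have h3 : C.ι π * (10 * y) = C.ι π * (C.ι a + C.ι b * C.w) := by rw [hab]
    rw [map_sub, map_mul, map_mul, ← h2]
    linear_combination 10 * hy - h3
  have h4 := (C.ind _ _ h1).1
  exact h10 ⟨a, (sub_eq_zero.1 h4).symm⟩

/-- `l` does not divide `10` -/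
theorem UNU_l10 (p : Pt) (hp : IsPt2 p) (D₀ : ℤ) (f l : ℕ) (hD : p.D = D₀ * (f : ℤ) ^ 2) (hl : l.Prime) (hlf : l ∣ f) :
    ¬ (l : ℤ) ∣ 10 := by
  intro h
  have h1 : (l : ℤ) ∣ p.D := by
    rw [hD]
    exact Dvd.dvd.mul_left (dvd_pow (Int.natCast_dvd_natCast.2 hlf) (by norm_num)) _
  have h2 := hp.D20
  have h3 : p.D = 20 * (p.D / 20) + 17 := by omega
  have h4 : (l : ℤ) ∣ 17 := by
    have h5 : (17 : ℤ) = p.D - 10 * (2 * (p.D / 20)) := by linarith
    rw [h5]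
    exact dvd_sub h1 (Dvd.dvd.mul_right h _)
  have h5 : (l : ℤ) ∣ 1 := by
    have h6 : (1 : ℤ) = 17 * 3 - 10 * 5 := by norm_num
    rw [h6]
    exact dvd_sub (Dvd.dvd.mul_right h4 _) (Dvd.dvd.mul_right h _)
  have h6 : (l : ℤ) = 1 := Int.eq_one_of_dvd_one (by positivity) h5
  have h7 : l = 1 := by exact_mod_cast h6
  exact hl.one_lt.ne' h7

/-- the exact exponent -/
theorem UNU_exp (hWEU : WEU_stmt) (π x : OO) (hπ : Prime π) (hx : x ≠ 0) : ∃ m : ℕ, π ^ m ∣ x ∧ ¬ π ^ (m + 1) ∣ x := by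
  have := hWEU.1
  have := hWEU.2
  have h1 : ∃ m : ℕ, ¬ π ^ (m + 1) ∣ x := FiniteMultiplicity.of_prime_left hπ hx
  classical
  refine ⟨Nat.find h1, ?_, Nat.find_spec h1⟩
  rcases Nat.eq_zero_or_pos (Nat.find h1) with h2 | h2
  · rw [h2, pow_zero]
    exact one_dvd _
  · obtain ⟨k, hk⟩ : ∃ k, Nat.find h1 = k + 1 := ⟨Nat.find h1 - 1, by omega⟩
    have h3 := Nat.find_min h1 (m := k) (by omega)
    push Not at h3
    rw [hk]
    exact h3

theorem UNU_n0 (p : Pt) (hp : IsPt2 p) : p.n ≠ 0 := by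
  intro h
  obtain ⟨c, hc⟩ := hp.n1
  rw [h] at hc
  have h1 := congrArg QuadraticAlgebra.re hc
  rw [QuadraticAlgebra.re_mul, QuadraticAlgebra.re_ofNat, QuadraticAlgebra.im_ofNat] at h1
  have h2 : (0 - 1 : OO).re = -1 := rfl
  rw [h2] at h1
  have h3 : (-1 : ℤ) = 25 * c.re := by
    have h4 : (OfNat.ofNat 25 : ℤ) = 25 := rfl
    rw [h1]
    ring
  omega

theorem UNU (hWEU : WEU_stmt) (h1 : UYE_stmt) (h2 : UPI_stmt) : UNU_stmt := by
  intro D₀ F _ _ C p q f hp hq hDp hDq hS l π hl hlf hπ hπl hπ2 hm c hc hc1 hc2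
  have := hWEU.1
  have := hWEU.2
  have hf0 : f ≠ 0 := by
    intro h
    have h3 := hp.D0
    rw [hDp, h] at h3
    simp at h3
  have h10 : ¬ π ∣ (10 : OO) := by
    intro h
    exact UNU_l10 p hp D₀ f l hDp hl hlf (hm 10 (by exact_mod_cast h))
  have hnu : ¬ IsUnit (C.ι π) := UNU_unit C π h10
  obtain ⟨P, hPm, hπP⟩ := exists_max_ideal_of_mem_nonunits (mem_nonunits_iff.2 hnu)
  have hPp : P.IsPrime := hPm.isPrime
  have hP0 : P ≠ ⊥ := by
    intro h
    rw [h, Ideal.mem_bot] at hπP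
    exact hπ.ne_zero (UNU_inj C hπP)
  obtain ⟨ρ, hρ, he, hmem, hval⟩ := h2 D₀ F C P hPp hP0
  have hρπ : ρ ∣ π := (hmem π).1 hπP
  have hass : Associated ρ π := (Prime.dvd_prime_iff_associated hρ hπ).1 hρπ
  have hdv : ∀ (x : OO) (m : ℕ), ρ ^ m ∣ x ↔ π ^ m ∣ x := fun x m => (hass.pow_pow (n := m)).dvd_iff_dvd_left
  have hvp : vv P (C.ι p.n) = c * vv P (C.ι ρ) := hval p.n c ((hdv _ _).2 hc1) (fun h => hc2 ((hdv _ _).1 h))
  -- the valuation of `f`
  have hJ : π ^ (f.factorization l) ∣ ((f : ℕ) : OO) ∧ ¬ π ^ (f.factorization l + 1) ∣ ((f : ℕ) : OO) := by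
    obtain ⟨g, hg⟩ := Nat.ordProj_dvd f l
    have hg' : ¬ l ∣ g := by
      intro h
      have h3 : l ^ (f.factorization l + 1) ∣ f := by
        rw [pow_succ]
        nth_rewrite 2 [hg]
        exact mul_dvd_mul_left _ h
      exact Nat.pow_succ_factorization_not_dvd hf0 hl h3
    obtain ⟨m, hml⟩ := hπl
    have hπm : ¬ π ∣ m := by
      rintro ⟨t, ht⟩
      exact hπ2 ⟨t, by rw [hml, ht]; ring⟩
    have hπg : ¬ π ∣ ((g : ℕ) : OO) := by
      intro h
      have h3 := hm (g : ℤ) (by exact_mod_cast h)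
      exact hg' (Int.natCast_dvd_natCast.1 h3)
    have e1 : ((f : ℕ) : OO) = π ^ (f.factorization l) * (m ^ (f.factorization l) * ((g : ℕ) : OO)) := by
      have h3 : ((f : ℕ) : OO) = ((l ^ (f.factorization l) * g : ℕ) : OO) := by rw [← hg]
      rw [h3]
      push_cast
      rw [hml]
      ring
    refine ⟨⟨_, e1⟩, ?_⟩
    intro h
    have h4 : π ^ (f.factorization l + 1) ∣ π ^ (f.factorization l) * (m ^ (f.factorization l) * ((g : ℕ) : OO)) := by
      rw [← e1]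
      exact h
    rw [pow_succ] at h4
    have h5 := (mul_dvd_mul_iff_left (pow_ne_zero _ hπ.ne_zero)).1 h4
    rcases hπ.dvd_or_dvd h5 with h6 | h6
    · exact hπm (hπ.dvd_of_dvd_pow h6)
    · exact hπg h6
  have hιf : C.ι ((f : ℕ) : OO) = ((f : ℕ) : 𝓞 F) := map_natCast C.ι f
  have hvf : vv P ((f : ℕ) : 𝓞 F) = f.factorization l * vv P (C.ι ρ) := by
    rw [← hιf]
    exact hval _ _ ((hdv _ _).2 hJ.1) (fun h => hJ.2 ((hdv _ _).1 h))
  have hfP : ((f : ℕ) : 𝓞 F) ∈ P := by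
    obtain ⟨g, hg⟩ := hlf
    obtain ⟨m, hml⟩ := hπl
    have e1 : ((f : ℕ) : 𝓞 F) = C.ι π * (C.ι m * ((g : ℕ) : 𝓞 F)) := by
      rw [← hιf, hg]
      push_cast
      rw [hml, map_mul, map_mul, map_natCast]
      ring
    rw [e1]
    exact P.mul_mem_right _ hπP
  have hU := (h1 D₀ F C p q f hp hq hDp hDq hS P hPp hP0 hfP).1
  have hvq : vv P (C.ι q.n) = c * vv P (C.ι ρ) := by
    rcases hU with h3 | ⟨h3, h4⟩
    · rw [← h3, hvp]
    · exfalso
      rw [hvp, hvf] at h3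
      have h5 : 14 * f.factorization l ≤ 5 * c := by
        have h6 : (14 * f.factorization l) * vv P (C.ι ρ) ≤ (5 * c) * vv P (C.ι ρ) := by
          rw [mul_assoc, mul_assoc]
          exact h3
        exact Nat.le_of_mul_le_mul_right h6 (by omega)
      have h7 : 15 * c + 15 ≤ f.factorization l + 14 := by
        have h8 := (Nat.lt_div_iff_mul_lt (by norm_num : 0 < 15)).1 hc
        omega
      omega
  obtain ⟨m, hm1, hm2⟩ := UNU_exp hWEU π q.n hπ (UNU_n0 q hq)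
  have hvq' : vv P (C.ι q.n) = m * vv P (C.ι ρ) := hval q.n m ((hdv _ _).2 hm1) (fun h => hm2 ((hdv _ _).1 h))
  have hmc : m = c := by
    have h3 : m * vv P (C.ι ρ) = c * vv P (C.ι ρ) := by rw [← hvq', hvq]
    exact Nat.eq_of_mul_eq_mul_right (by omega) h3
  rw [hmc] at hm1 hm2
  exact ⟨hm1, hm2⟩

end Pool.Agent.RF
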