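import Pool.Agent.helper95.RF.SpecC2

/-!
# Project RF (MP_16912e_nt), block C, row CFI (assembly of block C)
-/

set_option autoImplicit false

namespace Pool.Agent.RF

open Finset NumberField Pool.Agent.helper3.FT

theorem CFI_unit (l : ℕ) (hl : l.Prime) (h : (l : OO) ∣ 1) : False := by
  obtain ⟨w, hw⟩ := h
  have e1 := congrArg QuadraticAlgebra.re hw
  simp at e1
  have e2 : (l : ℤ) ∣ 1 := ⟨w.re, e1⟩
  have e3 : l ∣ 1 := by exact_mod_cast e2
  exact hl.one_lt.ne' (Nat.dvd_one.1 e3)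

theorem CFI_bad {P l : ℕ} {n : OO} (hl : l.Prime) (hln : (l : OO) ∣ n) (h10 : l ∣ 10 * P) (h2 : IsCoprime 2 n)
    (h25 : (25 : OO) ∣ n - 1) (hP : (P : OO) ∣ n - 1) : False := by
  have hkey : (l : OO) ∣ n - 1 → False := by
    intro h
    apply CFI_unit l hl
    have e : (1 : OO) = n - (n - 1) := by ring
    rw [e]
    exact dvd_sub hln h
  have h1 : l ∣ 2 * 5 * P := by
    have : 10 * P = 2 * 5 * P := by ring
    rwa [this] at h10
  rcases (Nat.Prime.dvd_mul hl).1 h1 with h3 | h3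
  · rcases (Nat.Prime.dvd_mul hl).1 h3 with h4 | h4
    · have h5 : l = 2 := (Nat.prime_dvd_prime_iff_eq hl Nat.prime_two).1 h4
      subst h5
      apply CFI_unit 2 hl
      obtain ⟨a, b, hab⟩ := h2
      rw [← hab]
      exact dvd_add (Dvd.intro_left a rfl) (hln.mul_left b)
    · have h5 : l = 5 := (Nat.prime_dvd_prime_iff_eq hl Nat.prime_five).1 h4
      subst h5
      apply hkey
      refine dvd_trans ?_ h25
      refine ⟨5, ?_⟩
      push_cast
      norm_num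
  · apply hkey
    refine dvd_trans ?_ hP
    obtain ⟨m, rfl⟩ := h3
    exact ⟨(m : OO), by push_cast; ring⟩

/-- the real inequalities -/
theorem CFI_real (N S q Q s D nn X : ℝ) (hN : 262144 ≤ N) (hQ0 : 0 < Q) (hqQ : Q < q) (hq2 : q ≤ 2 * Q) (hS0 : 0 < S)
    (hS3 : S ^ 3 = 500 * N * Q ^ 4) (hs1 : S / 2 ≤ s) (hs2 : s ≤ S) (h1 : s ^ 3 ≤ 2000 * q ^ 4 * D)
    (h2 : 500 * q ^ 4 * D ≤ s ^ 3) (h3 : q ^ 2 * nn ≤ 2 * s ^ 2) (hX0 : 0 < X) (hX : X ≤ Q)
    (hSX : 2 * S ^ 2 * 512 ≤ N * X ^ 2) : 0 < D ∧ √N ≤ D ∧ D ≤ N ∧ nn ≤ D := by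
  have hs0 : 0 < s := by linarith
  have hq0 : 0 < q := by linarith
  have hD0 : 0 < D := by
    by_contra hcon
    push Not at hcon
    have : 2000 * q ^ 4 * D ≤ 0 := mul_nonpos_of_nonneg_of_nonpos (by positivity) hcon
    have : 0 < s ^ 3 := by positivity
    linarith
  have hQ4 : 0 < Q ^ 4 := by positivity
  have e1 : D ≤ N := by
    have a1 : Q ^ 4 ≤ q ^ 4 := pow_le_pow_left₀ hQ0.le hqQ.le 4
    have a2 : s ^ 3 ≤ S ^ 3 := pow_le_pow_left₀ hs0.le hs2 3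
    have a3 : 500 * Q ^ 4 * D ≤ 500 * q ^ 4 * D := by
      apply mul_le_mul_of_nonneg_right _ hD0.le
      linarith
    have a4 : (500 * Q ^ 4) * D ≤ (500 * Q ^ 4) * N := by linarith
    exact le_of_mul_le_mul_left a4 (by positivity)
  have e2 : N / 512 ≤ D := by
    have a1 : q ^ 4 ≤ (2 * Q) ^ 4 := pow_le_pow_left₀ hq0.le hq2 4
    have a2 : (S / 2) ^ 3 ≤ s ^ 3 := pow_le_pow_left₀ (by positivity) hs1 3
    have a3 : 2000 * q ^ 4 * D ≤ 2000 * (2 * Q) ^ 4 * D := by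
      apply mul_le_mul_of_nonneg_right _ hD0.le
      linarith
    have a4 : (S / 2) ^ 3 = 500 / 8 * N * Q ^ 4 := by
      have : (S / 2) ^ 3 = S ^ 3 / 8 := by ring
      rw [this, hS3]
      ring
    have a5 : (32000 * Q ^ 4) * (N / 512) ≤ (32000 * Q ^ 4) * D := by
      have b1 : (32000 * Q ^ 4) * (N / 512) = 500 / 8 * N * Q ^ 4 := by ring
      have b2 : 2000 * (2 * Q) ^ 4 * D = (32000 * Q ^ 4) * D := by ring
      linarith
    exact le_of_mul_le_mul_left a5 (by positivity)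
  have e3 : √N ≤ N / 512 := by
    have b0 : √(262144 : ℝ) = 512 := by
      rw [show (262144 : ℝ) = 512 ^ 2 by norm_num]
      exact Real.sqrt_sq (by norm_num)
    have b1 : (512 : ℝ) ≤ √N := by rw [← b0]; exact Real.sqrt_le_sqrt hN
    have b2 : √N * √N = N := Real.mul_self_sqrt (by linarith)
    nlinarith
  have e4 : nn ≤ N / 512 := by
    have c1 : X ^ 2 ≤ q ^ 2 := pow_le_pow_left₀ hX0.le (hX.trans hqQ.le) 2
    have c2 : s ^ 2 ≤ S ^ 2 := pow_le_pow_left₀ hs0.le hs2 2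
    by_cases hnn : nn ≤ 0
    · have : 0 < N / 512 := by positivity
      linarith
    · push Not at hnn
      have c3 : X ^ 2 * nn ≤ q ^ 2 * nn := mul_le_mul_of_nonneg_right c1 hnn.le
      have c4 : X ^ 2 * nn ≤ X ^ 2 * (N / 512) := by
        have : X ^ 2 * (N / 512) = N * X ^ 2 / 512 := by ring
        rw [this, le_div_iff₀ (by norm_num)]
        nlinarith
      exact le_of_mul_le_mul_left c4 (by positivity)
  exact ⟨hD0, e3.trans e2, e1, e4.trans e2⟩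

theorem CFI_large (η B : ℝ) (hη : 0 < η) : ∃ N₀ : ℝ, ∀ N : ℝ, N₀ ≤ N → ∀ S : ℝ, 0 < S →
    S ≤ 8 * B ^ 2 * N ^ (1 - 4 / 3 * η) → 2 * S ^ 2 * 512 ≤ N * (N ^ (1 / 2 - η)) ^ 2 := by
  have h' := (tendsto_rpow_atTop (by positivity : (0 : ℝ) < 2 / 3 * η)).eventually_ge_atTop (65536 * B ^ 4)
  obtain ⟨N₀, hN₀⟩ := Filter.eventually_atTop.1 h'
  refine ⟨max N₀ 1, fun N hN S hS hSB => ?_⟩
  have hN1 : 1 ≤ N := (le_max_right _ _).trans hN
  have hN0 : 0 < N := by linarith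
  have h1 := hN₀ N ((le_max_left _ _).trans hN)
  have h2 : S ^ 2 ≤ (8 * B ^ 2 * N ^ (1 - 4 / 3 * η)) ^ 2 := pow_le_pow_left₀ hS.le hSB 2
  have e1 : (N ^ (1 - 4 / 3 * η)) ^ 2 * N ^ (2 / 3 * η) = N * (N ^ (1 / 2 - η)) ^ 2 := by
    rw [← Real.rpow_natCast (N ^ (1 - 4 / 3 * η)) 2, ← Real.rpow_natCast (N ^ (1 / 2 - η)) 2, ← Real.rpow_mul hN0.le, ← Real.rpow_mul hN0.le,
      ← Real.rpow_add hN0]
    nth_rewrite 2 [← Real.rpow_one N]
    rw [← Real.rpow_add hN0]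
    congr 1
    push_cast
    ring
  calc 2 * S ^ 2 * 512 ≤ 2 * (8 * B ^ 2 * N ^ (1 - 4 / 3 * η)) ^ 2 * 512 := by linarith
    _ = (N ^ (1 - 4 / 3 * η)) ^ 2 * (65536 * B ^ 4) := by ring
    _ ≤ (N ^ (1 - 4 / 3 * η)) ^ 2 * N ^ (2 / 3 * η) := mul_le_mul_of_nonneg_left h1 (by positivity)
    _ = _ := e1

theorem CFI (h1 : CGD_stmt) (h2 : CKS_stmt) (h3 : CLO_stmt) (h4 : CPA_stmt) (h5 : CRG_stmt) (h6 : CPX_stmt) : PTS_stmt := by
  classical
  intro η hη hη1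
  obtain ⟨P, hP1, hP10, hCGD⟩ := h1
  obtain ⟨B, c, X₀, hB, hc, hKS⟩ := h2
  have hB1 : (1 : ℝ) ≤ B := by exact_mod_cast hB
  set E : ℕ := 16 * 5 ^ 6 * P with hE
  have hE1 : 1 ≤ E := by omega
  obtain ⟨N₁, hN₁⟩ := hCGD B η c hB hη hη1 hc
  obtain ⟨N₂, hN₂⟩ := h6 E B η hE1 hB hη hη1
  obtain ⟨N₃, hN₃⟩ := CFI_large η B hη
  obtain ⟨N₄, hN₄⟩ := Filter.eventually_atTop.1 ((tendsto_rpow_atTop (by linarith : (0 : ℝ) < 1 / 2 - η)).eventually_ge_atTop X₀)
  refine ⟨max (max N₁ N₂) (max (max N₃ N₄) 262144), fun N hN => ?_⟩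
  have hNa : N₁ ≤ N := ((le_max_left _ _).trans (le_max_left _ _)).trans hN
  have hNb : N₂ ≤ N := ((le_max_right _ _).trans (le_max_left _ _)).trans hN
  have hNc : N₃ ≤ N := (((le_max_left _ _).trans (le_max_left _ _)).trans (le_max_right _ _)).trans hN
  have hNd : N₄ ≤ N := (((le_max_right _ _).trans (le_max_left _ _)).trans (le_max_right _ _)).trans hN
  have hNe : 262144 ≤ N := ((le_max_right _ _).trans (le_max_right _ _)).trans hN
  have hN0 : 0 < N := by linarith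
  obtain ⟨Q, T, hQ1, hQ2, hKF, hTc⟩ := hKS (N ^ (1 / 2 - η)) (hN₄ N hNd)
  have hRg : Rg B η N Q := ⟨hQ1, hQ2⟩
  obtain ⟨⟨L, V, z₀, S, hPar⟩, hsz⟩ := hN₂ N hNb Q hRg
  obtain ⟨-, hS2, -, -, -, -, -, hEQ⟩ := hsz L V z₀ S hPar
  have hEQ' : E ≤ Q := by exact_mod_cast hEQ
  choose M₀ s₀ hcl using fun k => h3 P k hP10
  obtain ⟨W, hW1, hW2, hW3⟩ := hN₁ N hNa Q L V z₀ S T M₀ s₀ hRg hPar hKF hTc (fun k _ => (hcl k).2)
  have hX0 : 0 < N ^ (1 / 2 - η) := Real.rpow_pos_of_pos hN0 _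
  have hQ0 : (0 : ℝ) < Q := hX0.trans_le hQ1
  have hER : (1 : ℝ) ≤ E := by exact_mod_cast hE1
  have hEZ : (E : ℤ) = 16 * 5 ^ 6 * P := by rw [hE]; push_cast; ring
  -- the points
  have hpt : ∀ x : (_ : OO) × (ℤ × ℤ × ℤ), x ∈ T.sigma W → ∃ p : Pt, p.k = x.1 ∧ p.M = 25 * pM E (M₀ x.1) x.2 ∧
      2 * ph * star p.n * x.1 ^ 2 = r5 * (ps E (s₀ x.1) x.2 : OO) - ((pM E (M₀ x.1) x.2).norm : OO) ∧
      IsPt p ∧ √N ≤ (p.D : ℝ) ∧ (p.D : ℝ) ≤ N ∧ |p.n.norm| ≤ p.D ∧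
      ∀ l : ℕ, l.Prime → (l : OO) ∣ p.n → N ^ (3 / 4 * η) < (l : ℝ) := by
    rintro ⟨k, t⟩ hx
    obtain ⟨hk, ht⟩ := Finset.mem_sigma.1 hx
    change k ∈ T at hk
    change t ∈ W k at ht
    have hKK := hKF.kk k hk
    have hpr := hKK.pr
    have hlo := hKK.lo
    have hcop : Nat.Coprime k.norm.natAbs E := by
      rw [Nat.Prime.coprime_iff_not_dvd hpr]
      intro h
      have := Nat.le_of_dvd hE1 h
      omega
    have hH := hW1 k hk ht
    unfold Hit at hH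
    rw [mem_filter, mem_product, mem_product, mem_Ico, mem_Ico, mem_Ico] at hH
    obtain ⟨⟨⟨hx1, hx2⟩, ⟨hy1, hy2⟩, hz1, hz2⟩, hCG⟩ := hH
    obtain ⟨hnd, hbad⟩ := hW3 k hk t ht
    obtain ⟨hCls, hm1, hm2, hm3, hm4, hs1, hs2⟩ := hcl k
    have hd1 : (E : OO) ∣ pM E (M₀ k) t - M₀ k := by
      unfold pM
      rw [add_sub_cancel_left]
      exact dvd_mul_right _ _
    have hd2 : (E : ℤ) ∣ ps E (s₀ k) t - s₀ k := by
      unfold ps
      rw [add_sub_cancel_left]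
      exact dvd_mul_right _ _
    obtain ⟨n, X, D, g1, g2, g3, g4, g5, g6, g7, g8, g9, g10, g11⟩ :=
      h4 E P k (M₀ k) (pM E (M₀ k) t) (s₀ k) (ps E (s₀ k) t) hE hP10 hP1 hpr hcop hCls hd1 hd2 hCG hnd
    -- sizes
    have hqR : (Q : ℝ) < (k.norm.natAbs : ℝ) := by exact_mod_cast hlo
    have hq2R : (k.norm.natAbs : ℝ) ≤ 2 * Q := by exact_mod_cast hKK.hi
    have hsqQ : √(Q : ℝ) ^ 2 = Q := Real.sq_sqrt hQ0.le
    have hva : va k ^ 2 ≤ 4 * (k.norm.natAbs : ℝ) := by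
      have e1 : |va k| ^ 2 ≤ (2 * √(Q : ℝ)) ^ 2 := pow_le_pow_left₀ (abs_nonneg _) hKK.ba 2
      rw [sq_abs, mul_pow, hsqQ] at e1
      linarith
    have hvb : vb k ^ 2 ≤ 4 * (k.norm.natAbs : ℝ) := by
      have e1 : |vb k| ^ 2 ≤ (2 * √(Q : ℝ)) ^ 2 := pow_le_pow_left₀ (abs_nonneg _) hKK.bb 2
      rw [sq_abs, mul_pow, hsqQ] at e1
      linarith
    have hL1 := hPar.L1
    have hre : (pM E (M₀ k) t).re = (M₀ k).re + E * t.1 := by
      unfold pM
      simp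
    have him : (pM E (M₀ k) t).im = (M₀ k).im + E * t.2.1 := by
      unfold pM
      simp
    have hbox : ∀ a x : ℤ, 0 ≤ a → a < 16 * 5 ^ 6 * P → 0 ≤ x → x < L → |((a + E * x : ℤ) : ℝ)| ≤ √S / 100 := by
      intro a x ha1 ha2 hx1 hx2
      have b1 : a + E * x ≤ E * L := by
        rw [← hEZ] at ha2
        have : (E : ℤ) * x ≤ E * (L - 1) := mul_le_mul_of_nonneg_left (by omega) (by positivity)
        nlinarith
      have b2 : 0 ≤ a + E * x := by positivity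
      have b3 : ((a + E * x : ℤ) : ℝ) ≤ E * L := by exact_mod_cast b1
      have b4 : (0 : ℝ) ≤ ((a + E * x : ℤ) : ℝ) := by exact_mod_cast b2
      rw [abs_of_nonneg b4, le_div_iff₀ (by norm_num)]
      nlinarith
    have hMre : |((pM E (M₀ k) t).re : ℝ)| ≤ √S / 100 := by rw [hre]; exact hbox _ _ hm1 hm2 hx1 hx2
    have hMim : |((pM E (M₀ k) t).im : ℝ)| ≤ √S / 100 := by rw [him]; exact hbox _ _ hm3 hm4 hy1 hy2
    have hsl : S / 2 ≤ (ps E (s₀ k) t : ℝ) := by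
      refine hPar.z1.trans ?_
      have b1 : (E : ℤ) * z₀ ≤ ps E (s₀ k) t := by
        unfold ps
        have : (E : ℤ) * z₀ ≤ E * t.2.2 := mul_le_mul_of_nonneg_left hz1 (by positivity)
        linarith
      exact_mod_cast b1
    have hsu : (ps E (s₀ k) t : ℝ) ≤ S := by
      refine le_trans ?_ hPar.z2
      have b1 : ps E (s₀ k) t ≤ (E : ℤ) * (z₀ + V + 1) := by
        unfold ps
        rw [← hEZ] at hs2
        have : (E : ℤ) * t.2.2 ≤ E * (z₀ + V) := mul_le_mul_of_nonneg_left hz2.le (by positivity)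
        nlinarith
      have b2 : ((ps E (s₀ k) t : ℤ) : ℝ) ≤ (((E : ℤ) * (z₀ + V + 1) : ℤ) : ℝ) := by exact_mod_cast b1
      push_cast at b2
      exact b2
    obtain ⟨r1, r2, r3⟩ := h5 k (pM E (M₀ k) t) n X (ps E (s₀ k) t) D S hPar.S0 hpr.pos hva hvb hMre hMim hsl hsu g1 g2 g3
    obtain ⟨f1, f2, f3, f4⟩ := CFI_real N S (k.norm.natAbs : ℝ) Q (ps E (s₀ k) t : ℝ) D |(n.norm : ℝ)| (N ^ (1 / 2 - η)) hNe hQ0 hqR hq2R
      hPar.S0 hPar.S3 hsl hsu r1 r2 r3 hX0 hQ1 (hN₃ N hNc S hPar.S0 hS2)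
    have hD0 : 0 < D := by exact_mod_cast f1
    refine ⟨⟨k, X, n, 25 * pM E (M₀ k) t, D⟩, rfl, rfl, g1, ?_, f2, f3, ?_, ?_⟩
    · refine { e1 := g3, e2 := ?_, X1 := g5, n1 := g6, kn := g7, kn' := g8, n2 := g9, k0 := ?_, D0 := hD0, D20 := g10 }
      · show n * (25 * pM E (M₀ k) t) = ph * star X * (25 * k) - X * star (25 * k)
        have e25 : star (25 * k) = 25 * star k := by
          rw [star_mul, star_ofNat]
          ring
        rw [e25]
        linear_combination 25 * g4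
      · intro h0
        change k = 0 at h0
        rw [h0] at hpr
        simp at hpr
        exact Nat.not_prime_zero hpr
    · have e1 : ((|n.norm| : ℤ) : ℝ) ≤ (D : ℝ) := by push_cast; exact f4
      exact_mod_cast e1
    · intro l hl hln
      by_contra hcon
      push Not at hcon
      exact CFI_bad hl hln (hbad n l g1 hl hcon hln) g9 g6 g11
  have : Nonempty Pt := ⟨⟨0, 0, 0, 0, 0⟩⟩
  choose! f hf using hpt
  have hinj : Set.InjOn f (T.sigma W : Set ((_ : OO) × (ℤ × ℤ × ℤ))) := by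
    rintro ⟨k, t⟩ hx ⟨k', t'⟩ hx' he
    obtain ⟨a1, a2, a3, -⟩ := hf _ hx
    obtain ⟨b1, b2, b3, -⟩ := hf _ hx'
    rw [he] at a1 a2 a3
    change _ = k at a1
    change _ = k' at b1
    have hkk : k = k' := a1.symm.trans b1
    subst hkk
    have hE0 : (E : ℤ) ≠ 0 := by positivity
    have hM : pM E (M₀ k) t = pM E (M₀ k) t' := by
      have e1 : (25 : OO) * pM E (M₀ k) t = 25 * pM E (M₀ k) t' := a2.symm.trans b2
      have e2 := congrArg QuadraticAlgebra.re e1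
      have e3 := congrArg QuadraticAlgebra.im e1
      have r1 : (25 : OO).re = 25 := rfl
      have r2 : (25 : OO).im = 0 := rfl
      simp only [QuadraticAlgebra.re_mul, QuadraticAlgebra.im_mul, r1, r2] at e2 e3
      exact QuadraticAlgebra.ext (by linarith) (by linarith)
    have hs : r5 * (ps E (s₀ k) t : OO) = r5 * (ps E (s₀ k) t' : OO) := by
      have e1 : r5 * (ps E (s₀ k) t : OO) - ((pM E (M₀ k) t).norm : OO) = r5 * (ps E (s₀ k) t' : OO) - ((pM E (M₀ k) t').norm : OO) :=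
        a3.symm.trans b3
      rw [hM] at e1
      exact sub_left_injective e1
    have hs' : ps E (s₀ k) t = ps E (s₀ k) t' := by
      have e1 := congrArg QuadraticAlgebra.re hs
      simp [r5] at e1
      exact e1
    have c1 : t.1 = t'.1 := by
      have e1 := congrArg QuadraticAlgebra.re hM
      unfold pM at e1
      simp at e1
      rcases e1 with e1 | e1
      · exact e1
      · omega
    have c2 : t.2.1 = t'.2.1 := by
      have e1 := congrArg QuadraticAlgebra.im hM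
      unfold pM at e1
      simp at e1
      rcases e1 with e1 | e1
      · exact e1
      · omega
    have c3 : t.2.2 = t'.2.2 := by
      unfold ps at hs'
      have e1 : (E : ℤ) * t.2.2 = E * t'.2.2 := by linarith
      exact mul_left_cancel₀ hE0 e1
    have c4 : t = t' := Prod.ext c1 (Prod.ext c2 c3)
    rw [c4]
  refine ⟨(T.sigma W).image f, ?_, ?_, ?_⟩
  · rw [card_image_of_injOn hinj, card_sigma]
    push_cast
    exact hW2
  · intro p hp
    obtain ⟨x, hx, rfl⟩ := mem_image.1 hp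
    obtain ⟨-, -, -, a4, a5, a6, a7, a8⟩ := hf x hx
    exact ⟨a4, a5, a6, a7, a8⟩
  · intro p hp q hq hpq
    obtain ⟨x, hx, rfl⟩ := mem_image.1 hp
    obtain ⟨y, hy, rfl⟩ := mem_image.1 hq
    rw [(hf x hx).1, (hf y hy).1] at hpq ⊢
    have hxT := (Finset.mem_sigma.1 hx).1
    have hyT := (Finset.mem_sigma.1 hy).1
    apply hKF.inj _ hxT _ hyT
    have e1 : x.1.norm ∣ y.1.norm := map_dvd _ hpq
    exact (Nat.prime_dvd_prime_iff_eq (hKF.kk _ hxT).pr (hKF.kk _ hyT).pr).1 (Int.natAbs_dvd_natAbs.2 e1)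

end Pool.Agent.RF
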