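import Pool.Agent.helper95.RF.SpecC

/-!
# Project RF (MP_16912e_nt), block C, row CSP (bad primes)
-/

set_option autoImplicit false

namespace Pool.Agent.RF

open Finset NumberField Pool.Agent.helper3.FT

theorem CSP_dvd (l : ℕ) (hl : l.Prime) (h2 : l ≠ 2) (k n M : OO) (s : ℤ)
    (h : 2 * ph * star n * k ^ 2 = r5 * (s : OO) - (M.norm : OO)) (hn : (l : OO) ∣ n) : (l : ℤ) ∣ s ∧ (l : ℤ) ∣ M.norm := by
  obtain ⟨n₁, rfl⟩ := hn
  have h1 : (l : OO) * (2 * ph * star n₁ * k ^ 2) = r5 * (s : OO) - (M.norm : OO) := by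
    rw [← h, star_mul, star_natCast]
    ring
  generalize 2 * ph * star n₁ * k ^ 2 = W at h1
  have e1 := congrArg QuadraticAlgebra.re h1
  have e2 := congrArg QuadraticAlgebra.im h1
  simp [r5] at e1 e2
  have hl' : Prime (l : ℤ) := Nat.prime_iff_prime_int.1 hl
  have e3 : (l : ℤ) ∣ 2 * s := ⟨W.im, by linarith⟩
  have e4 : (l : ℤ) ∣ s := by
    rcases hl'.dvd_or_dvd e3 with h5 | h5
    · exfalso
      have h6 : l ∣ 2 := by exact_mod_cast h5
      exact h2 ((Nat.prime_dvd_prime_iff_eq hl Nat.prime_two).1 h6)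
    · exact h5
  refine ⟨e4, ?_⟩
  have e5 : M.norm = -s - (l : ℤ) * W.re := by linarith
  rw [e5]
  exact dvd_sub (by rwa [dvd_neg]) (dvd_mul_right _ _)

theorem CSP (h1 : CTH_stmt) : CSP_stmt := by
  classical
  obtain ⟨hC1, hC2, hC3⟩ := h1
  intro l hl hl2 hl5
  have hmod : l % 5 = 1 ∨ l % 5 = 2 ∨ l % 5 = 3 ∨ l % 5 = 4 := by
    have h5 : ¬ 5 ∣ l := fun h => hl5 ((Nat.prime_dvd_prime_iff_eq Nat.prime_five hl).1 h).symm
    omega
  have hl' : Prime (l : ℤ) := Nat.prime_iff_prime_int.1 hl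
  by_cases hcase : l % 5 = 2 ∨ l % 5 = 3
  · refine ⟨{(l, 1)}, by simp, ?_, ?_⟩
    · intro p hp
      rw [Finset.mem_singleton] at hp
      subst hp
      refine ⟨hl.one_le, ?_, ?_, ?_⟩
      · simp
      · show (1 : OO).re ^ 2 ≤ (((1 : OO).norm.natAbs : ℕ) : ℤ)
        have e : (1 : OO).re = 1 := rfl
        rw [map_one, e]
        norm_num
      · show (1 : OO).im ^ 2 ≤ (((1 : OO).norm.natAbs : ℕ) : ℤ)
        have e : (1 : OO).im = 0 := rfl
        rw [map_one, e]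
        norm_num
    · intro k n M s h hn
      obtain ⟨e1, e2⟩ := CSP_dvd l hl hl2 k n M s h hn
      refine ⟨(l, 1), Finset.mem_singleton_self _, ?_, ?_⟩
      · show (l : OO) * 1 ∣ M
        rw [mul_one]
        exact hC3 l hl hl2 hcase M e2
      · show (l : ℤ) * (1 : OO).norm ∣ s
        rw [map_one, mul_one]
        exact e1
  · have hcase' : l % 5 = 1 ∨ l % 5 = 4 := by omega
    obtain ⟨r, hr⟩ := hC2 l hl hcase'
    have hr2 : (l : ℤ) ∣ (1 - r) ^ 2 - (1 - r) - 1 := by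
      have e : (1 - r) ^ 2 - (1 - r) - 1 = r ^ 2 - r - 1 := by ring
      rw [e]
      exact hr
    obtain ⟨g, hg1, hg2, hg3, hg4⟩ := hC1 l r hl hl5 hr
    obtain ⟨g', hg1', hg2', hg3', hg4'⟩ := hC1 l (1 - r) hl hl5 hr2
    refine ⟨{(1, g), (1, g')}, Finset.card_le_two, ?_, ?_⟩
    · intro p hp
      rw [Finset.mem_insert, Finset.mem_singleton] at hp
      rcases hp with rfl | rfl
      · refine ⟨le_rfl, by rw [one_mul]; exact hg1, ?_, ?_⟩
        · show g.re ^ 2 ≤ ((g.norm.natAbs : ℕ) : ℤ)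
          rw [hg1]; exact hg2
        · show g.im ^ 2 ≤ ((g.norm.natAbs : ℕ) : ℤ)
          rw [hg1]; exact hg3
      · refine ⟨le_rfl, by rw [one_mul]; exact hg1', ?_, ?_⟩
        · show g'.re ^ 2 ≤ ((g'.norm.natAbs : ℕ) : ℤ)
          rw [hg1']; exact hg2'
        · show g'.im ^ 2 ≤ ((g'.norm.natAbs : ℕ) : ℤ)
          rw [hg1']; exact hg3'
    · intro k n M s h hn
      obtain ⟨e1, e2⟩ := CSP_dvd l hl hl2 k n M s h hn
      have e3 : (l : ℤ) ∣ (M.re + r * M.im) * (M.re + (1 - r) * M.im) := by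
        have e4 : (M.re + r * M.im) * (M.re + (1 - r) * M.im) = M.norm - (r ^ 2 - r - 1) * M.im ^ 2 := by
          rw [QuadraticAlgebra.norm_def]
          ring
        rw [e4]
        exact dvd_sub e2 (hr.mul_right _)
      have hns : ∀ x : OO, x.norm.natAbs = l → x.norm ∣ s := by
        intro x hx
        rw [← Int.natAbs_dvd, hx]
        exact e1
      rcases hl'.dvd_or_dvd e3 with h5 | h5
      · refine ⟨(1, g), by simp, ?_, ?_⟩
        · show ((1 : ℕ) : OO) * g ∣ M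
          rw [Nat.cast_one, one_mul]
          exact (hg4 M).2 h5
        · show ((1 : ℕ) : ℤ) * g.norm ∣ s
          rw [Nat.cast_one, one_mul]
          exact hns g hg1
      · refine ⟨(1, g'), by simp, ?_, ?_⟩
        · show ((1 : ℕ) : OO) * g' ∣ M
          rw [Nat.cast_one, one_mul]
          exact (hg4' M).2 h5
        · show ((1 : ℕ) : ℤ) * g'.norm ∣ s
          rw [Nat.cast_one, one_mul]
          exact hns g' hg1'

end Pool.Agent.RF
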