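import Pool.Agent.helper13.RF.Spec2

/-!
# Project RF (MP_16912e_nt), row CGU (upper density of the primes with class in a subgroup of index 5)
-/

set_option autoImplicit false

open NumberField IsDedekindDomain
open scoped nonZeroDivisors

namespace Pool.Agent.RF

theorem CGU_unif {α : Type} [DecidableEq α] (S : Finset α) (f : α → ℝ → ℝ)
    (h : ∀ a ∈ S, ∃ C δ : ℝ, 0 < δ ∧ ∀ s : ℝ, 1 < s → s < 1 + δ → f a s ≤ C) :
    ∃ C δ : ℝ, 0 < δ ∧ ∀ s : ℝ, 1 < s → s < 1 + δ → ∑ a ∈ S, f a s ≤ C := by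
  induction S using Finset.induction_on with
  | empty => exact ⟨0, 1, one_pos, fun s _ _ => by simp⟩
  | insert a S ha ih =>
    obtain ⟨C1, δ1, hδ1, h1⟩ := h a (Finset.mem_insert_self a S)
    obtain ⟨C2, δ2, hδ2, h2⟩ := ih fun b hb => h b (Finset.mem_insert_of_mem hb)
    refine ⟨C1 + C2, min δ1 δ2, lt_min hδ1 hδ2, fun s hs1 hs2 => ?_⟩
    rw [Finset.sum_insert ha]
    have e1 := min_le_left δ1 δ2
    have e2 := min_le_right δ1 δ2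
    exact add_le_add (h1 s hs1 (by linarith)) (h2 s hs1 (by linarith))

section defs

variable (K : Type) [Field K] [NumberField K]

/-- the class of the ideal is in `H` -/
def CGU_in (H : Subgroup (ClassGroup (𝓞 K))) (a : Ideal (𝓞 K)) : Prop :=
  ∀ w : (Ideal (𝓞 K))⁰, (w : Ideal (𝓞 K)) = a → ClassGroup.mk0 w ∈ H

theorem CGU_cx (ψ : ClassGroup (𝓞 K) →* ℂˣ) (w : (Ideal (𝓞 K))⁰) : cx K ψ (w : Ideal (𝓞 K)) = ((ψ (ClassGroup.mk0 w) : ℂˣ) : ℂ) := by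
  have h : (w : Ideal (𝓞 K)) ≠ ⊥ := mem_nonZeroDivisors_iff_ne_zero.1 w.2
  unfold cx
  rw [dif_neg h]

theorem CGU_mem {p : ℕ} {a : Ideal (𝓞 K)} : a ∈ CH.idl K p ↔ Ideal.absNorm a = p := by
  unfold CH.idl
  rw [Set.Finite.mem_toFinset]
  rfl

theorem CGU_ne {p : ℕ} (hp : p.Prime) {a : Ideal (𝓞 K)} (ha : a ∈ CH.idl K p) : a ≠ ⊥ := by
  intro h
  rw [CGU_mem, h, Ideal.absNorm_bot] at ha
  exact hp.ne_zero ha.symm

open Classical in
theorem CGU_count (H : Subgroup (ClassGroup (𝓞 K))) {p : ℕ} (hp : p.Prime) :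
    Nat.card {v : GK.Pl K // v ∈ {v | v ∈ HS K H ∧ (GK.nv K v).Prime} ∧ GK.nv K v = p} = ((CH.idl K p).filter (CGU_in K H)).card := by
  have e1 : Nat.card {v : GK.Pl K // v ∈ {v | v ∈ HS K H ∧ (GK.nv K v).Prime} ∧ GK.nv K v = p} =
      ({v : GK.Pl K | v ∈ {v | v ∈ HS K H ∧ (GK.nv K v).Prime} ∧ GK.nv K v = p}).ncard := rfl
  have hinj : Function.Injective (fun v : GK.Pl K => v.asIdeal) := fun v v' h => HeightOneSpectrum.ext h
  rw [e1, ← Set.ncard_image_of_injective _ hinj, ← Set.ncard_coe_finset]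
  congr 1
  ext a
  constructor
  · rintro ⟨v, ⟨⟨h1, h2⟩, h3⟩, rfl⟩
    rw [Finset.mem_coe, Finset.mem_filter, CGU_mem]
    exact ⟨h3, h1⟩
  · intro ha
    rw [Finset.mem_coe, Finset.mem_filter] at ha
    obtain ⟨h1, h2⟩ := ha
    have h3 := (CGU_mem K).1 h1
    have h4 : a.IsPrime := Ideal.isPrime_of_irreducible_absNorm (by rw [h3]; exact hp)
    have hv : GK.nv K ⟨a, h4, CGU_ne K hp h1⟩ = p := h3
    exact ⟨⟨a, h4, CGU_ne K hp h1⟩, ⟨⟨h2, by rw [hv]; exact hp⟩, hv⟩, rfl⟩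

open Classical in
theorem CGU_sum (H : Subgroup (ClassGroup (𝓞 K))) (Ψ : Finset (ClassGroup (𝓞 K) →* ℂˣ))
    (hΨ : ∀ d : ClassGroup (𝓞 K), (d ∈ H → ∑ ψ ∈ Ψ, ((ψ d : ℂˣ) : ℂ) = 5) ∧ (d ∉ H → ∑ ψ ∈ Ψ, ((ψ d : ℂˣ) : ℂ) = 0)) {p : ℕ} (hp : p.Prime) :
    ∑ ψ ∈ Ψ, CH.cc (cx K ψ) p = 5 * (((CH.idl K p).filter (CGU_in K H)).card : ℂ) := by
  unfold CH.cc
  rw [Finset.sum_comm, Finset.card_filter]
  push_cast
  rw [Finset.mul_sum]
  refine Finset.sum_congr rfl fun a ha => ?_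
  have ha0 := CGU_ne K hp ha
  set w : (Ideal (𝓞 K))⁰ := ⟨a, mem_nonZeroDivisors_iff_ne_zero.mpr ha0⟩ with hw
  have e1 : ∀ ψ : ClassGroup (𝓞 K) →* ℂˣ, cx K ψ a = ((ψ (ClassGroup.mk0 w) : ℂˣ) : ℂ) := fun ψ => CGU_cx K ψ w
  simp only [e1]
  by_cases h : ClassGroup.mk0 w ∈ H
  · have h2 : CGU_in K H a := by
      intro w' hw'
      have h3 : w' = w := Subtype.ext hw'
      rw [h3]
      exact h
    rw [(hΨ _).1 h, if_pos h2, mul_one]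
  · have h2 : ¬ CGU_in K H a := fun h3 => h (h3 w rfl)
    rw [(hΨ _).2 h, if_neg h2, mul_zero]

theorem CGU_one {p : ℕ} (hp : p.Prime) : CH.cc (cx K 1) p = (CH.nd K p : ℂ) := by
  unfold CH.cc
  have e1 : ∀ a ∈ CH.idl K p, cx K 1 a = 1 := by
    intro a ha
    have ha0 := CGU_ne K hp ha
    have h1 := CGU_cx K 1 ⟨a, mem_nonZeroDivisors_iff_ne_zero.mpr ha0⟩
    rw [MonoidHom.one_apply, Units.val_one] at h1
    exact h1
  rw [Finset.sum_congr rfl e1, Finset.sum_const, nsmul_eq_mul, mul_one]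
  congr 1
  unfold CH.nd
  have e2 : Nat.card {I : Ideal (𝓞 K) // Ideal.absNorm I = p} = ({I : Ideal (𝓞 K) | Ideal.absNorm I = p}).ncard := rfl
  rw [e2, ← Set.ncard_coe_finset]
  congr 1
  ext a
  rw [Finset.mem_coe, CGU_mem]
  rfl

end defs

theorem CGU (hCHR : CHR_stmt) (hCGL : CGL_stmt) (hCGB : CGB_stmt) (hLGB : CH.LGB_stmt) (hKFV : CH.KFV_stmt) (hSMB : CD.SMB_stmt)
    (hDSL : CD.DSL_stmt) (hPRS : CD.PRS_stmt) : CGU_stmt := by
  classical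
  intro K _ _ H hH ε hε
  obtain ⟨Ψ, -, h1Ψ, hΨ⟩ := hCHR (ClassGroup (𝓞 K)) H hH
  obtain ⟨C0, hLG⟩ := hLGB K
  have hCM : ∀ ψ, CH.CM (cx K ψ) := fun ψ => (hCGL K ψ).1
  obtain ⟨C1, δ1, hδ1, hC1⟩ := CGU_unif (Ψ.erase 1) (fun ψ s => (∑' p : Nat.Primes, CH.cc (cx K ψ) p * (((p : ℕ) : ℂ) ^ (-(s : ℂ)))).re) (by
    intro ψ hψ
    exact hCGB K ψ (Finset.ne_of_mem_erase hψ))
  obtain ⟨C2, δ2, hδ2, hC2⟩ := hKFV K
  obtain ⟨-, C3, hC3⟩ := hSMB K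
  obtain ⟨-, hPR⟩ := hPRS K
  set A : ℝ := |(C1 + C2) / 5 + C3| with hA
  have hA0 : 0 ≤ A := abs_nonneg _
  refine ⟨min (min δ1 δ2) (Real.exp (-(A / ε))), lt_min (lt_min hδ1 hδ2) (Real.exp_pos _), fun s hs1 hs2 => ?_⟩
  have hsδ1 : s < 1 + δ1 := by
    have := (min_le_left (min δ1 δ2) (Real.exp (-(A / ε)))).trans (min_le_left _ _)
    linarith
  have hsδ2 : s < 1 + δ2 := by
    have := (min_le_left (min δ1 δ2) (Real.exp (-(A / ε)))).trans (min_le_right _ _)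
    linarith
  have hsδ3 : s - 1 < Real.exp (-(A / ε)) := by
    have := min_le_right (min δ1 δ2) (Real.exp (-(A / ε)))
    linarith
  obtain ⟨-, hmono, hdis, -⟩ := hDSL K s hs1
  -- the decomposition
  set S1 : Set (GK.Pl K) := {v | v ∈ HS K H ∧ (GK.nv K v).Prime} with hS1
  set S2 : Set (GK.Pl K) := {v | v ∈ HS K H ∧ ¬ (GK.nv K v).Prime} with hS2
  have hun : HS K H = S1 ∪ S2 := by
    ext v
    rw [Set.mem_union]
    constructor
    · intro hv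
      by_cases hpv : (GK.nv K v).Prime
      · exact Or.inl ⟨hv, hpv⟩
      · exact Or.inr ⟨hv, hpv⟩
    · rintro (hv | hv)
      · exact hv.1
      · exact hv.1
  have hd : Disjoint S1 S2 := by
    rw [Set.disjoint_left]
    intro v hv hv'
    exact hv'.2 hv.2
  have hD : CD.DS K (HS K H) s = CD.DS K S1 s + CD.DS K S2 s := by rw [hun]; exact hdis S1 S2 hd
  have hD2 : CD.DS K S2 s ≤ C3 := (hmono S2 _ (fun v hv => hv.2)).trans (hC3 s hs1)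
  -- the primes of prime norm
  obtain ⟨hsum, hDS⟩ := hPR S1 s hs1 (fun v hv => hv.2)
  have hterm : ∀ p : Nat.Primes, ∑ ψ ∈ Ψ, CH.cc (cx K ψ) p * (((p : ℕ) : ℂ) ^ (-(s : ℂ))) =
      ((5 * ((Nat.card {v : GK.Pl K // v ∈ S1 ∧ GK.nv K v = p} : ℝ) * ((p : ℕ) : ℝ) ^ (-s)) : ℝ) : ℂ) := by
    intro p
    rw [← Finset.sum_mul, CGU_sum K H Ψ hΨ p.2, CGU_count K H p.2]
    push_cast
    rw [Complex.ofReal_cpow (by positivity)]
    push_cast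
    ring
  have hmain : ((5 * CD.DS K S1 s : ℝ) : ℂ) = ∑ ψ ∈ Ψ, ∑' p : Nat.Primes, CH.cc (cx K ψ) p * (((p : ℕ) : ℂ) ^ (-(s : ℂ))) := by
    rw [← Summable.tsum_finsetSum (fun ψ _ => (hLG (cx K ψ) (hCM ψ) s hs1).1), hDS, ← tsum_mul_left, Complex.ofReal_tsum]
    exact tsum_congr fun p => (hterm p).symm
  have hmain' : 5 * CD.DS K S1 s = ∑ ψ ∈ Ψ, (∑' p : Nat.Primes, CH.cc (cx K ψ) p * (((p : ℕ) : ℂ) ^ (-(s : ℂ)))).re := by
    have h := congrArg Complex.re hmain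
    rw [Complex.ofReal_re, Complex.re_sum] at h
    exact h
  rw [← Finset.add_sum_erase Ψ _ h1Ψ] at hmain'
  have hone : (∑' p : Nat.Primes, CH.cc (cx K 1) p * (((p : ℕ) : ℂ) ^ (-(s : ℂ)))).re = ∑' p : Nat.Primes, (CH.nd K p : ℝ) * ((p : ℕ) : ℝ) ^ (-s) := by
    have e1 : ∑' p : Nat.Primes, CH.cc (cx K 1) p * (((p : ℕ) : ℂ) ^ (-(s : ℂ))) = ((∑' p : Nat.Primes, (CH.nd K p : ℝ) * ((p : ℕ) : ℝ) ^ (-s) : ℝ) : ℂ) := by
      rw [Complex.ofReal_tsum]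
      refine tsum_congr fun p => ?_
      rw [CGU_one K p.2]
      push_cast
      rw [Complex.ofReal_cpow (by positivity)]
      push_cast
      rfl
    rw [e1, Complex.ofReal_re]
  have hK := (abs_le.1 (hC2 s hs1 hsδ2).2).2
  have hC1' := hC1 s hs1 hsδ1
  rw [hone] at hmain'
  have hlog : A ≤ ε * (-Real.log (s - 1)) := by
    have h1 : Real.log (s - 1) < -(A / ε) := (Real.log_lt_iff_lt_exp (by linarith)).2 hsδ3
    have h2 : A / ε < -Real.log (s - 1) := by linarith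
    have h3 := (div_lt_iff₀ hε).1 h2
    linarith
  have hAA : (C1 + C2) / 5 + C3 ≤ A := le_abs_self _
  rw [hD]
  nlinarith

end Pool.Agent.RF
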