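import Pool.Agent.helper88.RF.SpecW

/-!
# Project RF (MP_16912e_nt), block C part W, row WFA (families of moduli)
-/

set_option autoImplicit false

namespace Pool.Agent.RF

open Finset

theorem WFA_proof (hWVA : WVA_stmt) : WFA_stmt := by
  classical
  obtain ⟨-, -, -, -, -, hnorm, -⟩ := hWVA
  intro Q W S hQ hW hS hdt
  have hQ' : (0 : ℝ) < Q := by exact_mod_cast hQ
  have hW' : (0 : ℝ) < W := by exact_mod_cast hW
  have hsQ : 0 < √(Q : ℝ) := Real.sqrt_pos.2 hQ'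
  have hsQ2 : √(Q : ℝ) * √(Q : ℝ) = Q := Real.mul_self_sqrt hQ'.le
  have h5 : (32 : ℝ) / 15 ≤ √5 := Real.le_sqrt_of_sq_le (by norm_num)
  have h5p : (0 : ℝ) < √5 := by positivity
  have h55 : √(5 : ℝ) ^ 2 = 5 := Real.sq_sqrt (by norm_num)
  -- the size of `vb k`
  have hvb : ∀ k ∈ S, √(Q : ℝ) < 2 * |vb k| := by
    intro k hk
    have h := hS k hk
    have h1 : (Q : ℝ) < |va k| * |vb k| := by
      rw [← abs_mul, hnorm]
      have h2 : ((Q : ℕ) : ℝ) < ((k.norm.natAbs : ℕ) : ℝ) := by exact_mod_cast h.lo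
      rwa [Nat.cast_natAbs, Int.cast_abs] at h2
    have h3 := h.ba
    have h4 := abs_nonneg (vb k)
    by_contra hcon
    push Not at hcon
    nlinarith
  have hvb0 : ∀ k ∈ S, vb k ≠ 0 := by
    intro k hk h0
    have := hvb k hk
    rw [h0, abs_zero] at this
    linarith
  set d : ℝ := √5 * W / (4 * Q) with hd
  have hdp : 0 < d := by positivity
  have hdiff : ∀ k ∈ S, ∀ k₁ ∈ S, k ≠ k₁ → d ≤ |va k / vb k - va k₁ / vb k₁| := by
    intro k hk k₁ hk₁ hne
    have e1 : va k / vb k - va k₁ / vb k₁ = √5 * (dt k k₁ : ℝ) / (vb k * vb k₁) := by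
      rw [div_sub_div _ _ (hvb0 k hk) (hvb0 k₁ hk₁)]
      congr 1
      unfold va vb dt
      push_cast
      ring
    have hW1 : (W : ℝ) ≤ |(dt k k₁ : ℝ)| := by
      have h1 := hdt k hk k₁ hk₁ hne
      have h2 : ((W : ℤ) : ℝ) ≤ ((|dt k k₁| : ℤ) : ℝ) := by exact_mod_cast h1
      push_cast at h2
      exact h2
    have hb1 := (hS k hk).bb
    have hb2 := (hS k₁ hk₁).bb
    have hp1 : 0 < |vb k| := abs_pos.2 (hvb0 k hk)
    have hp2 : 0 < |vb k₁| := abs_pos.2 (hvb0 k₁ hk₁)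
    have hprod : |vb k| * |vb k₁| ≤ 4 * Q := by
      calc |vb k| * |vb k₁| ≤ (2 * √(Q : ℝ)) * (2 * √(Q : ℝ)) := mul_le_mul hb1 hb2 hp2.le (by positivity)
        _ = 4 * (√(Q : ℝ) * √(Q : ℝ)) := by ring
        _ = 4 * Q := by rw [hsQ2]
    rw [e1, abs_div, abs_mul, abs_mul, abs_of_pos h5p, hd]
    exact div_le_div₀ (by positivity) (mul_le_mul_of_nonneg_left hW1 h5p.le) (by positivity) hprod
  have hbd : ∀ k ∈ S, |va k / vb k| ≤ 4 := by
    intro k hk
    have hp1 : 0 < |vb k| := abs_pos.2 (hvb0 k hk)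
    rw [abs_div, div_le_iff₀ hp1]
    have h1 := (hS k hk).ba
    have h2 := hvb k hk
    linarith
  have hnn : ∀ k ∈ S, 0 ≤ (va k / vb k + 4) / d := by
    intro k hk
    have := (abs_le.1 (hbd k hk)).1
    exact div_nonneg (by linarith) hdp.le
  have hinj : Set.InjOn (fun k => ⌊(va k / vb k + 4) / d⌋₊) (S : Set OO) := by
    intro p hp q hq hpq
    by_contra hne
    have e1 := Nat.floor_le (hnn p hp)
    have e2 := Nat.lt_floor_add_one ((va p / vb p + 4) / d)
    have e3 := Nat.floor_le (hnn q hq)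
    have e4 := Nat.lt_floor_add_one ((va q / vb q + 4) / d)
    have e5 : (⌊(va p / vb p + 4) / d⌋₊ : ℝ) = (⌊(va q / vb q + 4) / d⌋₊ : ℝ) := by
      have : ⌊(va p / vb p + 4) / d⌋₊ = ⌊(va q / vb q + 4) / d⌋₊ := hpq
      rw [this]
    have hlt : |(va p / vb p + 4) / d - (va q / vb q + 4) / d| < 1 := by
      rw [abs_lt]
      constructor <;> linarith
    have e6 : (va p / vb p + 4) / d - (va q / vb q + 4) / d = (va p / vb p - va q / vb q) / d := by ring
    rw [e6, abs_div, abs_of_pos hdp, div_lt_one hdp] at hlt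
    have := hdiff p hp q hq hne
    linarith
  have hmaps : ∀ k ∈ S, ⌊(va k / vb k + 4) / d⌋₊ ∈ range (⌊(8 : ℝ) / d⌋₊ + 1) := by
    intro k hk
    rw [mem_range, Nat.lt_succ_iff]
    apply Nat.floor_le_floor
    have := (abs_le.1 (hbd k hk)).2
    exact div_le_div_of_nonneg_right (by linarith) hdp.le
  have hcard := card_le_card_of_injOn _ hmaps hinj
  rw [card_range] at hcard
  have hfl : ((⌊(8 : ℝ) / d⌋₊ : ℕ) : ℝ) ≤ 8 / d := Nat.floor_le (by positivity)
  have h8 : 8 / d ≤ 15 * Q / W := by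
    rw [hd, div_div_eq_mul_div, div_le_div_iff₀ (by positivity) hW']
    have : 32 * ((Q : ℝ) * W) ≤ 15 * √5 * (Q * W) := mul_le_mul_of_nonneg_right (by linarith) (by positivity)
    nlinarith
  have : (S.card : ℝ) ≤ ((⌊(8 : ℝ) / d⌋₊ + 1 : ℕ) : ℝ) := by exact_mod_cast hcard
  push_cast at this
  linarith

end Pool.Agent.RF
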